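import Pool.Agent.H.MP_4c1c99_co.A
import Pool.Agent.H.MP_1efb31_co.F

namespace Pool.Agent.Results.MP_4c1c99_co.Poly
open Finset

abbrev Plane := EuclideanSpace ℝ (Fin 2)

/-- a line of the plane: the affine span of two distinct points -/
def IsLine (ℓ : Set Plane) : Prop := ∃ p q : Plane, p ≠ q ∧ ℓ = affineSpan ℝ {p, q}

/-- no three distinct points of `A` are collinear -/
def GenPos (A : Set Plane) : Prop :=
  ∀ a ∈ A, ∀ b ∈ A, ∀ c ∈ A, a ≠ b → a ≠ c → b ≠ c → ¬ Collinear ℝ {a, b, c}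

/-- the largest number of points of `S` on one line -/
noncomputable def online (S : Finset Plane) : ℕ :=
  sSup {m | ∃ ℓ, IsLine ℓ ∧ m = ((S : Set Plane) ∩ ℓ).ncard}

/-- the least number of lines covering `S` -/
noncomputable def lc (S : Finset Plane) : ℕ :=
  sInf {k | ∃ L : Fin k → Set Plane, (∀ i, IsLine (L i)) ∧ ∀ x ∈ S, ∃ i, x ∈ L i}

/-- the least number of parts (labelled `0, …, g - 1`) in a partition of `S` into sets in general
position -/
noncomputable def gp (S : Finset Plane) : ℕ :=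
  sInf {g | ∃ f : Plane → ℕ, (∀ x ∈ S, f x < g) ∧ ∀ t, GenPos {x | x ∈ S ∧ f x = t}}

/-- every configuration with line cover number at most `k` and at least `n` points has
`GP = ⌈ONLINE / 2⌉` -/
def Good (k n : ℕ) : Prop :=
  ∀ S : Finset Plane, lc S ≤ k → n ≤ S.card → gp S = (online S + 1) / 2

/-- the threshold `N(k)` -/
noncomputable def N (k : ℕ) : ℕ := sInf {n | Good k n}

open Classical

lemma l1 {ℓ : Set Plane} (h : IsLine ℓ) {x y z : Plane} (hx : x ∈ ℓ) (hy : y ∈ ℓ) (hz : z ∈ ℓ) :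
    Collinear ℝ {x, y, z} := by
  obtain ⟨p, q, -, rfl⟩ := h
  exact collinear_triple_of_mem_affineSpan_pair hx hy hz

lemma l2 {ℓ : Set Plane} (h : IsLine ℓ) {x y z : Plane} (hx : x ∈ ℓ) (hy : y ∈ ℓ) (n : x ≠ y)
    (hz : Collinear ℝ {x, y, z}) : z ∈ ℓ := by
  obtain ⟨p, q, -, rfl⟩ := h
  exact affineSpan_pair_le_of_mem_of_mem hx hy
    (hz.mem_affineSpan_of_mem_of_ne (by simp) (by simp) (by simp) n)

lemma nc (S : Finset Plane) (ℓ : Set Plane) :
    ((S : Set Plane) ∩ ℓ).ncard = (S.filter (· ∈ ℓ)).card := by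
  rw [← Set.ncard_coe_finset]
  congr 1
  ext x
  simp

lemma bdd (S : Finset Plane) :
    BddAbove {m | ∃ ℓ, IsLine ℓ ∧ m = ((S : Set Plane) ∩ ℓ).ncard} :=
  ⟨S.card, by rintro _ ⟨ℓ, -, rfl⟩; rw [nc]; exact card_filter_le _ _⟩

lemma line_at (x : Plane) : ∃ ℓ, IsLine ℓ ∧ x ∈ ℓ := by
  obtain ⟨y, hy⟩ := exists_ne x
  exact ⟨_, ⟨x, y, hy.symm, rfl⟩, left_mem_affineSpan_pair _ _ _⟩

lemma le_online (S : Finset Plane) {ℓ : Set Plane} (h : IsLine ℓ) :
    (S.filter (· ∈ ℓ)).card ≤ online S := le_csSup (bdd S) ⟨ℓ, h, (nc S ℓ).symm⟩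

lemma gp2 {A : Finset Plane} {B : Set Plane} (h : GenPos B) (s : ∀ x ∈ A, x ∈ B)
    (c : ∀ x ∈ A, ∀ y ∈ A, ∀ z ∈ A, Collinear ℝ {x, y, z}) : A.card ≤ 2 := by
  by_contra hh
  obtain ⟨x, y, z, hx, hy, hz, h1, h2, h3⟩ := two_lt_card_iff.mp (not_le.mp hh)
  exact h x (s x hx) y (s y hy) z (s z hz) h1 h2 h3 (c x hx y hy z hz)

lemma upper {k : ℕ} (k0 : 0 < k) : Good k (60 * k ^ 4) := by
  intro S hk hS
  obtain ⟨L, L1, L2⟩ : lc S ∈ {k | ∃ L : Fin k → Set Plane, (∀ i, IsLine (L i)) ∧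
      ∀ x ∈ S, ∃ i, x ∈ L i} := Nat.sInf_mem ⟨S.card, fun i => (line_at (S.equivFin.symm i)).choose,
    fun i => (line_at _).choose_spec.1, fun x hx => ⟨S.equivFin ⟨x, hx⟩, by
      have := (line_at (S.equivFin.symm (S.equivFin ⟨x, hx⟩))).choose_spec.2
      simpa using this⟩⟩
  let c : H.MP_4c1c99_co.Cfg Plane (lc S) ((online S + 1) / 2) :=
    { S := S, L := L, F := S.filter fun x => ∃ i j, L i ≠ L j ∧ x ∈ L i ∧ x ∈ L j
      T := fun x u v => x ∈ S ∧ u ∈ S ∧ v ∈ S ∧ x ≠ u ∧ x ≠ v ∧ u ≠ v ∧ Collinear ℝ {x, u, v} ∧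
        ¬ ∃ i, x ∈ L i ∧ u ∈ L i ∧ v ∈ L i
      cov := L2
      hF := by
        have s : (S.filter fun x => ∃ i j, L i ≠ L j ∧ x ∈ L i ∧ x ∈ L j) ⊆ univ.biUnion
            fun e : Fin (lc S) × Fin (lc S) => S.filter fun x => L e.1 ≠ L e.2 ∧ x ∈ L e.1 ∧
              x ∈ L e.2 := fun x hx => by
          obtain ⟨h1, i, j, h2⟩ := mem_filter.mp hx
          exact mem_biUnion.mpr ⟨(i, j), mem_univ _, mem_filter.mpr ⟨h1, h2⟩⟩
        simpa [sq] using (card_le_card s).trans (card_biUnion_le_card_mul _ _ 1 fun e _ =>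
          card_le_one.mpr fun x hx y hy => by
            obtain ⟨-, h1, h2, h3⟩ := mem_filter.mp hx
            obtain ⟨-, -, h4, h5⟩ := mem_filter.mp hy
            by_contra n
            exact h1 (Set.ext fun z => ⟨fun h => l2 (L1 _) h3 h5 n (l1 (L1 _) h2 h4 h),
              fun h => l2 (L1 _) h2 h4 n (l1 (L1 _) h3 h5 h)⟩))
      mov := fun x hx h i j h1 h2 => by
        by_contra n
        exact h (mem_filter.mpr ⟨hx, i, j, n, h1, h2⟩)
      hK := fun i => by
        have := le_online S (L1 i)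
        have e : ∀ a b, @Finset.filter _ (· ∈ L i) a S = @Finset.filter _ (· ∈ L i) b S :=
          fun _ _ => by congr
        rw [e]
        exact this.trans (by omega)
      s1 := fun ⟨h1, h2, h3, h4, h5, h6, h7, h8⟩ => ⟨h2, h1, h3, h4.symm, h6, h5,
        by rwa [Set.insert_comm], fun ⟨i, h⟩ => h8 ⟨i, h.2.1, h.1, h.2.2⟩⟩
      s2 := fun ⟨h1, h2, h3, h4, h5, h6, h7, h8⟩ => ⟨h1, h3, h2, h5, h4, h6.symm,
        by rwa [Set.pair_comm], fun ⟨i, h⟩ => h8 ⟨i, h.1, h.2.2, h.2.1⟩⟩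
      mem := fun h => ⟨h.1, h.2.2.2.1⟩
      uniq := fun {x y u v i} hx hy h1 h2 => by
        by_contra n
        have hl : IsLine (affineSpan ℝ {u, v} : Set Plane) := ⟨u, v, hx.2.2.2.2.2.1, rfl⟩
        have m1 := left_mem_affineSpan_pair ℝ u v
        have m2 := right_mem_affineSpan_pair ℝ u v
        have m3 := l2 (z := x) hl m1 m2 hx.2.2.2.2.2.1 (by
          rw [Set.pair_comm, Set.insert_comm]; exact hx.2.2.2.2.2.2.1)
        have m4 := l2 (z := y) hl m1 m2 hx.2.2.2.2.2.1 (by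
          rw [Set.pair_comm, Set.insert_comm]; exact hy.2.2.2.2.2.2.1)
        exact hx.2.2.2.2.2.2.2 ⟨i, h1, l2 (L1 i) h1 h2 n (l1 hl m3 m4 m1),
          l2 (L1 i) h1 h2 n (l1 hl m3 m4 m2)⟩ }
  have h1 : S.card ≤ lc S * online S := H.MP_4c1c99_co.cover_card c S subset_rfl _ fun i => by
    convert le_online S (L1 i)
  have h2 : 60 * k ^ 3 ≤ online S := Nat.le_of_mul_le_mul_left (by
    calc k * (60 * k ^ 3) = 60 * k ^ 4 := by ring
      _ ≤ _ := hS.trans (h1.trans (Nat.mul_le_mul_right _ hk))) k0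
  have h3 : 0 < lc S := Nat.pos_of_mul_pos_right (lt_of_lt_of_le (by positivity) (hS.trans h1))
  have h4 := Nat.pow_le_pow_left hk 3
  obtain ⟨f, vf, hf⟩ := H.MP_4c1c99_co.key c h3 (by omega)
  have mem : (online S + 1) / 2 ∈ {g | ∃ f : Plane → ℕ, (∀ x ∈ S, f x < g) ∧
      ∀ t, GenPos {x | x ∈ S ∧ f x = t}} := by
    refine ⟨f, fun x _ => vf.1 x, fun t x hx y hy z hz n1 n2 n3 hc => ?_⟩
    have e1 := hx.2.trans hy.2.symm
    have e2 := hx.2.trans hz.2.symm
    refine hf x y z ⟨hx.1, hy.1, hz.1, n1, n2, n3, hc, fun ⟨i, h⟩ => ?_⟩ e1 e2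
    exact vf.2.1 i x hx.1 y hy.1 z hz.1 h.1 h.2.1 h.2.2 n1 n2 n3 e1 e2
  refine le_antisymm (Nat.sInf_le mem) ?_
  obtain ⟨g, g1, g2⟩ := Nat.sInf_mem ⟨_, mem⟩
  obtain ⟨ℓ, hl, e⟩ : online S ∈ _ := Nat.sSup_mem ⟨_, L ⟨0, h3⟩, L1 _, rfl⟩ (bdd S)
  have := card_le_mul_card_image_of_maps_to (s := S.filter (· ∈ ℓ)) (t := range (gp S)) (f := g)
    (fun x hx => mem_range.mpr (g1 x (mem_filter.mp hx).1)) 2 fun t _ => gp2 (g2 t)
      (fun x hx => ⟨(mem_filter.mp (mem_filter.mp hx).1).1, (mem_filter.mp hx).2⟩)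
      fun x hx y hy z hz => l1 hl (mem_filter.mp (mem_filter.mp hx).1).2
        (mem_filter.mp (mem_filter.mp hy).1).2 (mem_filter.mp (mem_filter.mp hz).1).2
  rw [card_range, ← nc, ← e] at this
  change _ ≤ gp S
  omega

open H.MP_1efb31_co (det det_of_collinear)

noncomputable def emb (a : ℤ × ℤ) : Plane := !₂[(a.1 : ℝ), a.2]

lemma emb_inj : Function.Injective emb := fun a b e => by
  have e0 := congrArg (fun x => x 0) e
  have e1 := congrArg (fun x => x 1) e
  simp [emb] at e0 e1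
  exact Prod.ext e0 e1

lemma col_par (x s : ℤ) {a b c : ℤ × ℤ} (ha : a.1 = x + s * a.2) (hb : b.1 = x + s * b.2)
    (hc : c.1 = x + s * c.2) : Collinear ℝ {emb a, emb b, emb c} := by
  rw [collinear_iff_exists_forall_eq_smul_vadd]
  refine ⟨!₂[(x : ℝ), 0], !₂[(s : ℝ), 1], ?_⟩
  have k : ∀ a : ℤ × ℤ, a.1 = x + s * a.2 →
      ∃ r : ℝ, emb a = r • (!₂[(s : ℝ), 1] : Plane) +ᵥ (!₂[(x : ℝ), 0] : Plane) := fun a h =>
    ⟨a.2, by ext i; fin_cases i <;> simp [emb, h]; ring⟩
  rintro _ (rfl | rfl | rfl)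
  exacts [k a ha, k b hb, k c hc]

lemma hline (j : ℤ) : ∃ ℓ, IsLine ℓ ∧ ∀ a : ℤ × ℤ, a.2 = j → emb a ∈ ℓ := by
  refine ⟨_, ⟨emb (0, j), emb (1, j), emb_inj.ne (by simp), rfl⟩, fun a h => ?_⟩
  have : emb a = AffineMap.lineMap (emb (0, j)) (emb (1, j)) (a.1 : ℝ) := by
    ext i; fin_cases i <;> simp [emb, h, AffineMap.lineMap_apply]
  rw [this]
  exact AffineMap.lineMap_mem_affineSpan_pair _ _ _

def ph (m : ℕ) (e : ℕ × ℕ) : ℤ × ℤ :=
  (if 1 ≤ e.1 ∧ e.1 ≤ 3 then -(e.1 * e.2) else m + 1 + e.1, e.2)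

def idx (m : ℕ) : Finset (ℕ × ℕ) := (range (m + 1) ×ˢ Icc 1 m).filter fun e => e.1 ≠ e.2

lemma mem_idx {m : ℕ} {e : ℕ × ℕ} : e ∈ idx m ↔ e.1 ≤ m ∧ 1 ≤ e.2 ∧ e.2 ≤ m ∧ e.1 ≠ e.2 := by
  simp only [idx, mem_filter, mem_product, mem_range, mem_Icc]
  omega

lemma ph_inj (m : ℕ) : Set.InjOn (ph m) (idx m) := by
  rintro ⟨i, j⟩ h ⟨i', j'⟩ h' e
  rw [mem_coe, mem_idx] at h h'
  simp only [ph, Prod.mk.injEq, Nat.cast_inj] at e h h' ⊢
  obtain ⟨e, rfl⟩ := e
  refine ⟨?_, rfl⟩
  have : (1 : ℤ) ≤ j := by omega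
  split_ifs at e with h1 h2 h2
  · exact_mod_cast mul_right_cancel₀ (by omega : (j : ℤ) ≠ 0) (neg_injective e)
  · nlinarith
  · nlinarith
  · omega

lemma row_card (m j : ℕ) : ((idx m).filter fun e => e.2 = j).card ≤ m := by
  by_cases h : j ≤ m
  · refine le_trans (card_le_card_of_injOn (t := (range (m + 1)).erase j) Prod.fst
      (fun e he => ?_) fun e he e' he' h => ?_) (by simp [h, Nat.lt_succ_iff])
    · simp only [coe_filter, mem_idx, Set.mem_setOf_eq] at he
      simp only [coe_erase, coe_range, Set.mem_diff, Set.mem_Iio, Set.mem_singleton_iff]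
      omega
    · exact Prod.ext h ((mem_filter.mp he).2.trans (mem_filter.mp he').2.symm)
  · rw [filter_eq_empty_iff.mpr fun e he => by rw [mem_idx] at he; omega]
    simp

lemma idx_card (m : ℕ) : m ^ 2 ≤ (idx m).card := by
  have h1 := card_filter_add_card_filter_not (s := range (m + 1) ×ˢ Icc 1 m) fun e => e.1 ≠ e.2
  have h2 : ((range (m + 1) ×ˢ Icc 1 m).filter fun e => ¬ e.1 ≠ e.2).card ≤ (Icc 1 m).card :=
    card_le_card_of_injOn Prod.snd (fun e he => (mem_product.mp (mem_filter.mp he).1).2)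
      fun e he e' he' h => Prod.ext ((not_not.mp (mem_filter.mp he).2).trans
        (h.trans (not_not.mp (mem_filter.mp he').2).symm)) h
  simp only [card_product, card_range, Nat.card_Icc, add_tsub_cancel_right] at h1 h2
  unfold idx
  nlinarith

noncomputable def conf (m : ℕ) : Finset Plane := insert (emb 0) ((idx m).image (emb ∘ ph m))

lemma z_not (m : ℕ) : emb 0 ∉ (idx m).image (emb ∘ ph m) := fun h => by
  obtain ⟨e, he, h⟩ := mem_image.mp h
  have := congrArg Prod.snd (emb_inj h)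
  rw [mem_idx] at he
  simp only [ph, Prod.snd_zero] at this
  omega

lemma inj2 (m : ℕ) : Set.InjOn (emb ∘ ph m) (idx m) := fun _ h _ h' e => ph_inj m h h' (emb_inj e)

lemma conf_card (m : ℕ) : m ^ 2 + 1 ≤ (conf m).card := by
  rw [conf, card_insert_of_notMem (z_not m), card_image_of_injOn (inj2 m)]
  exact Nat.succ_le_succ (idx_card m)

lemma conf_filter (m : ℕ) (p : Plane → Prop) : ((conf m).filter p).card =
    ((idx m).filter fun e => p (emb (ph m e))).card + if p (emb 0) then 1 else 0 := by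
  have e : (((idx m).image (emb ∘ ph m)).filter p).card =
      ((idx m).filter fun e => p (emb (ph m e))).card := by
    rw [filter_image, card_image_of_injOn ((inj2 m).mono (coe_subset.mpr (filter_subset _ _)))]
    rfl
  rw [conf, filter_insert]
  split_ifs
  · rw [card_insert_of_notMem fun h => z_not m (mem_filter.mp h).1, e]
  · rw [e, add_zero]

lemma conf_lc (m : ℕ) : lc (conf m) ≤ m + 1 := Nat.sInf_le ⟨fun j => (hline j.1).choose,
  fun j => (hline _).choose_spec.1, fun x hx => by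
    rcases mem_insert.mp hx with rfl | hx
    · exact ⟨0, (hline _).choose_spec.2 _ rfl⟩
    · obtain ⟨e, he, rfl⟩ := mem_image.mp hx
      rw [mem_idx] at he
      exact ⟨⟨e.2, by omega⟩, (hline _).choose_spec.2 _ rfl⟩⟩

lemma conf_online {m : ℕ} (hm : 3 ≤ m) : online (conf m) ≤ m := by
  refine csSup_le' ?_
  rintro _ ⟨ℓ, hl, rfl⟩
  rw [nc, conf_filter]
  set A := (idx m).filter fun e => emb (ph m e) ∈ ℓ
  have dt : ∀ a b c : ℤ × ℤ, emb a ∈ ℓ → emb b ∈ ℓ → emb c ∈ ℓ → det a b c = 0 :=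
    fun a b c h1 h2 h3 => det_of_collinear (l1 hl h1 h2 h3)
  by_cases hr : Set.InjOn Prod.snd (A : Set (ℕ × ℕ))
  · have mp : ∀ e ∈ A, e.2 ∈ Icc 1 m := fun e he => by
      have := mem_idx.mp (mem_filter.mp he).1
      rw [mem_Icc]; omega
    split_ifs with z
    · obtain ⟨t, t1, t2⟩ : ∃ t ∈ Icc 1 m, ∀ e ∈ A, e.2 ≠ t := by
        by_contra hh
        push Not at hh
        obtain ⟨⟨i, j⟩, h1, rfl : j = 1⟩ := hh 1 (by simp; omega)
        obtain ⟨h1, h2⟩ := mem_filter.mp h1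
        rw [mem_idx] at h1
        by_cases c : 1 ≤ i ∧ i ≤ 3
        · obtain ⟨⟨i', j⟩, h3, rfl : j = i⟩ := hh i (by simp; omega)
          obtain ⟨h3, h4⟩ := mem_filter.mp h3
          rw [mem_idx] at h3
          have := dt _ _ _ z h2 h4
          simp only [det, ph, c, and_self, if_true, Prod.fst_zero, Prod.snd_zero] at this h3
          split_ifs at this with c'
          · have : (j : ℤ) * (i' - j) = 0 := by push_cast at this; linarith
            rcases mul_eq_zero.mp this with h | h <;> omega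
          · push_cast at this; nlinarith
        · obtain ⟨⟨i', j⟩, h3, rfl : j = 2⟩ := hh 2 (by simp; omega)
          obtain ⟨h3, h4⟩ := mem_filter.mp h3
          rw [mem_idx] at h3
          have := dt _ _ _ z h2 h4
          simp only [det, ph, c, if_false, Prod.fst_zero, Prod.snd_zero] at this h3
          split_ifs at this with c' <;> omega
      have := card_le_card_of_injOn (t := (Icc 1 m).erase t) Prod.snd
        (fun e he => mem_coe.mpr (mem_erase.mpr ⟨t2 e he, mp e he⟩)) hr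
      rw [card_erase_of_mem t1, Nat.card_Icc] at this
      omega
    · simpa using card_le_card_of_injOn (t := Icc 1 m) Prod.snd (fun e he => mp e he) hr
  · simp only [Set.InjOn, not_forall] at hr
    obtain ⟨e, he, e', he', h1, h2⟩ := hr
    obtain ⟨a1, a2⟩ := mem_filter.mp he
    obtain ⟨a3, a4⟩ := mem_filter.mp he'
    have n : (ph m e').1 - (ph m e).1 ≠ 0 := fun h => h2 (ph_inj m a1 a3
      (Prod.ext (by omega) (by simp [ph, h1])))
    have k : ∀ c : ℤ × ℤ, emb c ∈ ℓ → c.2 = e.2 := fun c hc => by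
      have := dt _ _ _ a2 a4 hc
      have e1 : (ph m e').2 = e.2 := by simp [ph, h1]
      have e2 : (ph m e).2 = e.2 := rfl
      rw [det, e1, e2, sub_self, zero_mul, sub_zero] at this
      exact sub_eq_zero.mp ((mul_eq_zero.mp this).resolve_left n)
    rw [if_neg fun z => by have := k 0 z; have := mem_idx.mp a1; simp at *; omega]
    refine le_trans (card_le_card fun x hx => ?_) (row_card m e.2)
    obtain ⟨h3, h4⟩ := mem_filter.mp hx
    exact mem_filter.mpr ⟨h3, Nat.cast_injective (R := ℤ) (k _ h4)⟩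

lemma cls_le {m : ℕ} (hm : 3 ≤ m) {B : Set Plane} (h : GenPos B) :
    ((conf m).filter (· ∈ B)).card ≤ 2 * m := by
  rw [conf_filter]
  set A := (idx m).filter fun e => emb (ph m e) ∈ B
  have k : ∀ X : Finset (ℤ × ℤ), (∀ x ∈ X, emb x ∈ B) → (∀ x ∈ X, ∀ y ∈ X, ∀ z ∈ X,
      Collinear ℝ {emb x, emb y, emb z}) → X.card ≤ 2 := fun X h1 h2 => by
    rw [← card_image_of_injective X emb_inj]
    exact gp2 h (forall_mem_image.mpr h1) (forall_mem_image.mpr fun x hx =>
      forall_mem_image.mpr fun y hy => forall_mem_image.mpr (h2 x hx y hy))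
  have ci : ∀ X ⊆ A, (X.image (ph m)).card = X.card := fun X hX =>
    card_image_of_injOn ((ph_inj m).mono (coe_subset.mpr (hX.trans (filter_subset _ _))))
  have mB : ∀ X ⊆ A, ∀ x ∈ X.image (ph m), emb x ∈ B := fun X hX x hx => by
    obtain ⟨e, he, rfl⟩ := mem_image.mp hx
    exact (mem_filter.mp (hX he)).2
  split_ifs with z
  · have f1 : ∀ i ∈ range (m + 1), (A.filter fun e => e.1 = i).card ≤
        if 1 ≤ i ∧ i ≤ 3 then 1 else 2 := fun i _ => by
      split_ifs with c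
      · have := k (insert 0 ((A.filter fun e => e.1 = i).image (ph m)))
          (fun x hx => (mem_insert.mp hx).elim (fun e => e ▸ z) (mB _ (filter_subset _ _) x)) (by
            have : ∀ x ∈ insert 0 ((A.filter fun e => e.1 = i).image (ph m)),
                x.1 = 0 + -(i : ℤ) * x.2 := fun x hx => by
              rcases mem_insert.mp hx with rfl | hx
              · simp
              · obtain ⟨e, he, rfl⟩ := mem_image.mp hx
                simp [ph, (mem_filter.mp he).2, c]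
            exact fun x hx y hy w hw => col_par _ _ (this x hx) (this y hy) (this w hw))
        rw [card_insert_of_notMem fun h => by
          obtain ⟨e, he, h⟩ := mem_image.mp h
          exact z_not m (mem_image.mpr ⟨e, (mem_filter.mp (mem_filter.mp he).1).1,
            congrArg emb h⟩), ci _ (filter_subset _ _)] at this
        omega
      · rw [← ci _ (filter_subset _ _)]
        refine k _ (mB _ (filter_subset _ _)) ?_
        have : ∀ x ∈ (A.filter fun e => e.1 = i).image (ph m),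
            x.1 = (m + 1 + i) + 0 * x.2 := fun x hx => by
          obtain ⟨e, he, rfl⟩ := mem_image.mp hx
          simp [ph, (mem_filter.mp he).2, c]
        exact fun x hx y hy w hw => col_par _ _ (this x hx) (this y hy) (this w hw)
    have h1 := card_eq_sum_card_fiberwise (s := A) (t := range (m + 1)) (f := Prod.fst)
      fun e he => by
        have := mem_idx.mp (mem_filter.mp he).1
        simp; omega
    have h2 := sum_le_sum f1
    obtain ⟨n, rfl⟩ : ∃ n, m = n + 3 := ⟨m - 3, by omega⟩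
    have h3 : ∑ i ∈ range (n + 3 + 1), (if 1 ≤ i ∧ i ≤ 3 then 1 else 2) = 2 * n + 5 := by
      rw [add_assoc, add_comm n, sum_range_add, sum_congr rfl (g := fun _ => 2)
        (s₁ := range n) fun x _ => if_neg (by omega)]
      simp [sum_range_succ]; ring
    omega
  · have := card_le_mul_card_image_of_maps_to (s := A) (t := Icc 1 m) (f := Prod.snd)
      (fun e he => by
        have := mem_idx.mp (mem_filter.mp he).1
        rw [mem_Icc]; omega) 2 fun j _ => by
        rw [← ci _ (filter_subset _ _)]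
        obtain ⟨ℓ, hl, h1⟩ := hline j
        have : ∀ x ∈ (A.filter fun e => e.2 = j).image (ph m), emb x ∈ ℓ := fun x hx => by
          obtain ⟨e, he, rfl⟩ := mem_image.mp hx
          exact h1 _ (by simp [ph, (mem_filter.mp he).2])
        exact k _ (mB _ (filter_subset _ _)) fun x hx y hy w hw => l1 hl (this x hx) (this y hy) (this w hw)
    simpa using this

lemma lower {s : ℕ} (hs : 2 ≤ s) : s < gp (conf (2 * s)) := by
  set S := conf (2 * s)
  obtain ⟨g, g1, g2⟩ : gp S ∈ {g | ∃ f : Plane → ℕ, (∀ x ∈ S, f x < g) ∧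
      ∀ t, GenPos {x | x ∈ S ∧ f x = t}} := Nat.sInf_mem ⟨S.card,
    fun x => if h : x ∈ S then (S.equivFin ⟨x, h⟩).1 else 0, fun x h => by simp [h],
    fun t x hx y hy _ _ n _ _ _ => by
      have e := hx.2.trans hy.2.symm
      simp only [hx.1, hy.1, dif_pos] at e
      exact n (congrArg Subtype.val (S.equivFin.injective (Fin.ext e)))⟩
  have := card_le_mul_card_image_of_maps_to (s := S) (t := range (gp S)) (f := g)
    (fun x hx => mem_range.mpr (g1 x hx)) (2 * (2 * s)) fun t _ =>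
      le_trans (card_le_card fun x hx => by simpa [S] using hx) (cls_le (by omega) (g2 t))
  have h := conf_card (2 * s)
  rw [card_range] at this
  by_contra hh
  have := Nat.mul_le_mul_left (2 * (2 * s)) (not_lt.mp hh)
  nlinarith

theorem result (k : ℕ) (hk : 1 ≤ k) :
    Good k (60 * k ^ 4) ∧ N k ≤ 60 * k ^ 4 ∧ (5 ≤ k → (k - 2) ^ 2 < N k) := by
  refine ⟨upper hk, Nat.sInf_le (upper hk), fun h5 => ?_⟩
  have h : Good k (N k) := Nat.sInf_mem (s := {n | Good k n}) ⟨_, upper hk⟩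
  by_contra hh
  have h1 := conf_lc (2 * ((k - 1) / 2))
  have h2 := conf_card (2 * ((k - 1) / 2))
  have h3 := conf_online (m := 2 * ((k - 1) / 2)) (by omega)
  have h4 := lower (s := (k - 1) / 2) (by omega)
  have h5 := Nat.pow_le_pow_left (show k - 2 ≤ 2 * ((k - 1) / 2) by omega) 2
  have := h (conf (2 * ((k - 1) / 2))) (by omega) (by omega)
  omega

end Pool.Agent.Results.MP_4c1c99_co.Poly
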